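import Mathlib

set_option autoImplicit false

/-!
Measure estimates for functions which are locally Lipschitz with respect to a monotone function.
-/

namespace Pool.Agent.X189.JP

open MeasureTheory Set
open scoped NNReal ENNReal

/-- one piece -/
lemma piece {V h : ℝ → ℝ} {S : Set ℝ} {κ : ℝ≥0} (hL : ∀ t ∈ S, ∀ t' ∈ S,
    |h t - h t'| ≤ κ * |V t - V t'|) : volume (h '' S) ≤ κ * volume (V '' S) := by
  rcases S.eq_empty_or_nonempty with rfl | ⟨x0, hx0⟩
  · simp
  have : Nonempty ℝ := ⟨x0⟩
  set φ : ℝ → ℝ := fun y => h (Function.invFunOn V S y) with hφ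
  have hinv : ∀ t ∈ S, φ (V t) = h t := by
    intro t ht
    have h1 : V t ∈ V '' S := ⟨t, ht, rfl⟩
    have h2 := Function.invFunOn_mem h1
    have h3 := Function.invFunOn_eq h1
    have h4 := hL _ h2 t ht
    rw [h3, sub_self, abs_zero, mul_zero] at h4
    have h5 : h (Function.invFunOn V S (V t)) - h t = 0 := by
      have := abs_nonneg (h (Function.invFunOn V S (V t)) - h t)
      exact abs_eq_zero.1 (le_antisymm h4 this)
    show h (Function.invFunOn V S (V t)) = h t
    linarith
  have himg : h '' S = φ '' (V '' S) := by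
    rw [image_image]
    exact image_congr fun t ht => (hinv t ht).symm
  have hLip : LipschitzOnWith κ φ (V '' S) := by
    rw [lipschitzOnWith_iff_dist_le_mul]
    rintro _ ⟨t, ht, rfl⟩ _ ⟨t', ht', rfl⟩
    rw [hinv t ht, hinv t' ht', Real.dist_eq, Real.dist_eq]
    exact hL t ht t' ht'
  rw [himg, ← hausdorffMeasure_real]
  have := hLip.hausdorffMeasure_image_le (d := 1) zero_le_one
  simpa using this

/-- the local version -/
lemma local_meas {V h : ℝ → ℝ} {T : Set ℝ} {κ : ℝ≥0} {δ : ℝ} (hδ : 0 < δ) (hV : Measurable V)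
    (hinj : InjOn V T) (hT : MeasurableSet T)
    (hL : ∀ t ∈ T, ∀ t' ∈ T, |t - t'| < δ → |h t - h t'| ≤ κ * |V t - V t'|) :
    volume (h '' T) ≤ κ * volume (V '' T) := by
  set P : ℤ → Set ℝ := fun i => T ∩ {t | ⌊t / δ⌋ = i} with hP
  have hTP : T = ⋃ i, P i := by
    ext t
    simp [hP]
  have hPm : ∀ i, MeasurableSet (P i) := by
    intro i
    refine hT.inter ?_
    have : Measurable fun t : ℝ => ⌊t / δ⌋ := (measurable_id.div_const δ).floor
    exact this (measurableSet_singleton i)
  have hPL : ∀ i, volume (h '' P i) ≤ κ * volume (V '' P i) := by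
    intro i
    refine piece ?_
    rintro t ⟨ht, hti⟩ t' ⟨ht', hti'⟩
    refine hL t ht t' ht' ?_
    have h1 : |t / δ - t' / δ| < 1 := Int.abs_sub_lt_one_of_floor_eq_floor (by
      rw [show ⌊t / δ⌋ = i from hti, show ⌊t' / δ⌋ = i from hti'])
    rw [← sub_div, abs_div, abs_of_pos hδ, div_lt_one hδ] at h1
    exact h1
  have hdisj : Pairwise (fun i j => Disjoint (V '' P i) (V '' P j)) := by
    intro i j hij
    rw [Set.disjoint_left]
    rintro _ ⟨t, ht, rfl⟩ ⟨t', ht', hVt⟩
    have : t' = t := hinj ht'.1 ht.1 hVt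
    subst this
    exact hij (by rw [← show ⌊t' / δ⌋ = i from ht.2, ← show ⌊t' / δ⌋ = j from ht'.2])
  have hmeas : ∀ i, MeasurableSet (V '' P i) := fun i =>
    (hPm i).image_of_measurable_injOn hV (hinj.mono inter_subset_left)
  calc volume (h '' T) = volume (⋃ i, h '' P i) := by rw [← image_iUnion, ← hTP]
    _ ≤ ∑' i, volume (h '' P i) := measure_iUnion_le _
    _ ≤ ∑' i, κ * volume (V '' P i) := ENNReal.tsum_le_tsum hPL
    _ = κ * ∑' i, volume (V '' P i) := ENNReal.tsum_mul_left
    _ = κ * volume (⋃ i, V '' P i) := by rw [measure_iUnion hdisj hmeas]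
    _ = κ * volume (V '' T) := by rw [← image_iUnion, ← hTP]

end Pool.Agent.X189.JP
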