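import Mathlib
import Pool.Agent.X189.JP.Meas

set_option autoImplicit false

/-!
Arcs in the image of a rectifiable curve.
-/

namespace Pool.Agent.X189.JP

open MeasureTheory Set
open scoped NNReal ENNReal

/-- A continuous curve `G` on `[a, b]` with a control function `V`. -/
structure Dat where
  a : ℝ
  b : ℝ
  G : ℝ → ℂ
  V : ℝ → ℝ
  hG : ContinuousOn G (Icc a b)
  hVm : Monotone V
  hVG : ∀ s ∈ Icc a b, ∀ t ∈ Icc a b, s ≤ t → ‖G s - G t‖ ≤ V t - V s
  hinj : InjOn V (Icc a b)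

/-- An injective curve in the image. -/
structure Arc (D : Dat) where
  c : ℝ
  d : ℝ
  γ : ℝ → ℂ
  hγ : ContinuousOn γ (Icc c d)
  hγi : InjOn γ (Icc c d)
  hin : ∀ s ∈ Icc c d, γ s ∈ D.G '' Icc D.a D.b

variable {D : Dat} (A : Arc D)

/-- the parameters over a half-open piece of the arc -/
def Arc.T (p q : ℝ) : Set ℝ := {t | t ∈ Icc D.a D.b ∧ D.G t ∈ A.γ '' Ico p q}

lemma Arc.T_sub (p q : ℝ) : A.T p q ⊆ Icc D.a D.b := fun _ h => h.1

lemma Arc.T_meas {p q : ℝ} (hp : p ∈ Icc A.c A.d) (hq : q ∈ Icc A.c A.d) :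
    MeasurableSet (A.T p q) := by
  have h1 : IsClosed (Icc D.a D.b ∩ D.G ⁻¹' (A.γ '' Icc p q)) := by
    refine D.hG.preimage_isClosed_of_isClosed isClosed_Icc ?_
    exact (isCompact_Icc.image_of_continuousOn (A.hγ.mono (Icc_subset_Icc hp.1 hq.2))).isClosed
  have h2 : IsClosed (Icc D.a D.b ∩ D.G ⁻¹' {A.γ q}) :=
    D.hG.preimage_isClosed_of_isClosed isClosed_Icc isClosed_singleton
  have h3 : A.T p q = (Icc D.a D.b ∩ D.G ⁻¹' (A.γ '' Icc p q)) \
      (Icc D.a D.b ∩ D.G ⁻¹' {A.γ q}) := by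
    ext t
    constructor
    · rintro ⟨ht, x, hx, hxt⟩
      refine ⟨⟨ht, x, Ico_subset_Icc_self hx, hxt⟩, ?_⟩
      rintro ⟨-, h4⟩
      have h5 : A.γ x = A.γ q := by rw [hxt]; exact h4
      have h6 := A.hγi ⟨hp.1.trans hx.1, hx.2.le.trans hq.2⟩ hq h5
      exact absurd h6 hx.2.ne
    · rintro ⟨⟨ht, x, hx, hxt⟩, h4⟩
      refine ⟨ht, x, ⟨hx.1, lt_of_le_of_ne hx.2 ?_⟩, hxt⟩
      rintro rfl
      exact h4 ⟨ht, hxt.symm⟩
  rw [h3]
  exact h1.measurableSet.diff h2.measurableSet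

/-- the arc lemma -/
lemma Arc.est {p q : ℝ} (hp : p ∈ Icc A.c A.d) (hq : q ∈ Icc A.c A.d) (hpq : p ≤ q)
    {u : ℂ → ℂ} (hu : ContinuousOn u (D.G '' Icc D.a D.b)) {κ : ℝ≥0} {δ : ℝ} (hδ : 0 < δ)
    (hL : ∀ t ∈ A.T p q, ∀ t' ∈ A.T p q, |t - t'| < δ →
      ‖u (D.G t) - u (D.G t')‖ ≤ κ * |D.V t - D.V t'|) :
    ENNReal.ofReal ‖u (A.γ q) - u (A.γ p)‖ ≤ κ * volume (D.V '' A.T p q) := by
  set z : ℂ := u (A.γ q) - u (A.γ p) with hz
  by_cases hz0 : z = 0
  · rw [hz0]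
    simp
  have hzn : 0 < ‖z‖ := norm_pos_iff.2 hz0
  -- the real functional
  set k : ℂ → ℝ := fun w => ((starRingEnd ℂ) z * w).re / ‖z‖ with hk
  have hksub : ∀ v w, k v - k w = k (v - w) := by
    intro v w
    simp only [hk]
    rw [mul_sub, Complex.sub_re, sub_div]
  have hkle : ∀ w, |k w| ≤ ‖w‖ := by
    intro w
    simp only [hk]
    rw [abs_div, abs_of_pos hzn, div_le_iff₀ hzn]
    refine (Complex.abs_re_le_norm _).trans ?_
    rw [norm_mul, RCLike.norm_conj, mul_comm]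
  have hkz : k z = ‖z‖ := by
    simp only [hk]
    rw [mul_comm, Complex.mul_conj, Complex.ofReal_re, Complex.normSq_eq_norm_sq, pow_two,
      mul_div_assoc, div_self hzn.ne', mul_one]
  have hkc : Continuous k := by
    simp only [hk]
    fun_prop
  set e : ℝ → ℝ := fun s => k (u (A.γ s)) with he
  have hsub : Icc p q ⊆ Icc A.c A.d := Icc_subset_Icc hp.1 hq.2
  have hec : ContinuousOn e (Icc p q) := by
    refine hkc.comp_continuousOn (hu.comp (A.hγ.mono hsub) ?_)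
    intro s hs
    exact A.hin s (hsub hs)
  have hdiff : e q - e p = ‖z‖ := by
    simp only [he]
    rw [hksub, ← hz, hkz]
  have hI : Ico (e p) (e q) ⊆ (fun t => k (u (D.G t))) '' A.T p q := by
    intro y hy
    obtain ⟨x, hx, hxy⟩ := intermediate_value_Icc hpq hec ⟨hy.1, hy.2.le⟩
    have hxq : x ≠ q := by
      rintro rfl
      exact absurd hxy hy.2.ne'
    obtain ⟨t, ht, htx⟩ := A.hin x (hsub hx)
    refine ⟨t, ⟨ht, x, ⟨hx.1, lt_of_le_of_ne hx.2 hxq⟩, htx.symm⟩, ?_⟩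
    show k (u (D.G t)) = y
    rw [htx]
    exact hxy
  have h1 : volume (Ico (e p) (e q)) = ENNReal.ofReal ‖z‖ := by
    rw [Real.volume_Ico, hdiff]
  rw [← h1]
  refine (measure_mono hI).trans ?_
  refine local_meas hδ D.hVm.measurable (D.hinj.mono (A.T_sub p q)) (A.T_meas hp hq) ?_
  intro t ht t' ht' htt
  rw [hksub]
  exact (hkle _).trans (hL t ht t' ht' htt)

/-- summation over a partition of the arc -/
lemma Arc.sum_le {n : ℕ} {p : ℕ → ℝ} (hp : ∀ i ≤ n, p i ∈ Icc A.c A.d)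
    (hmono : ∀ i < n, p i ≤ p (i + 1)) :
    ∑ i ∈ Finset.range n, volume (D.V '' A.T (p i) (p (i + 1))) ≤
      ENNReal.ofReal (D.V D.b - D.V D.a) := by
  have hmono' : ∀ i j, i ≤ j → j ≤ n → p i ≤ p j := by
    intro i j hij
    induction j, hij using Nat.le_induction with
    | base => intro _; exact le_rfl
    | succ j hij ih =>
      intro hj
      exact (ih (by omega)).trans (hmono j (by omega))
  rw [← measure_biUnion_finset]
  · rw [← Real.volume_Icc]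
    refine measure_mono ?_
    refine iUnion₂_subset fun i _ => ?_
    rintro _ ⟨t, ht, rfl⟩
    have := A.T_sub _ _ ht
    exact ⟨D.hVm this.1, D.hVm this.2⟩
  · have aux : ∀ i j, i < j → j < n → Disjoint (D.V '' A.T (p i) (p (i + 1)))
        (D.V '' A.T (p j) (p (j + 1))) := by
      intro i j hij hj
      rw [Set.disjoint_left]
      rintro _ ⟨t, ⟨ht, x, hx, hxt⟩, rfl⟩ ⟨t', ⟨ht', x', hx', hxt'⟩, hV⟩
      have htt : t' = t := D.hinj ht' ht hV
      subst htt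
      have hxx : A.γ x = A.γ x' := by rw [hxt, hxt']
      have h1 := A.hγi ⟨(hp i (by omega)).1.trans hx.1, hx.2.le.trans (hp (i + 1) (by omega)).2⟩
        ⟨(hp j (by omega)).1.trans hx'.1, hx'.2.le.trans (hp (j + 1) (by omega)).2⟩ hxx
      have h2 := hmono' (i + 1) j (by omega) (by omega)
      have h3 := hx.2
      have h4 := hx'.1
      rw [h1] at h3
      linarith
    intro i hi j hj hij
    have hi' : i < n := by simpa using hi
    have hj' : j < n := by simpa using hj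
    rcases Nat.lt_or_gt_of_ne hij with h | h
    · exact aux i j h hj'
    · exact (aux j i h hi').symm
  · intro i hi
    have hi' : i < n := Finset.mem_range.1 hi
    exact (A.T_meas (hp i (by omega)) (hp (i + 1) (by omega))).image_of_measurable_injOn
      D.hVm.measurable (D.hinj.mono (A.T_sub _ _))

/-- The Riemann sum type estimate. -/
lemma Arc.total {n : ℕ} {p : ℕ → ℝ} (hp : ∀ i ≤ n, p i ∈ Icc A.c A.d)
    (hmono : ∀ i < n, p i ≤ p (i + 1)) {u : ℕ → ℂ → ℂ}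
    (hu : ∀ i < n, ContinuousOn (u i) (D.G '' Icc D.a D.b)) {κ : ℝ≥0} {δ : ℝ} (hδ : 0 < δ)
    (hL : ∀ i < n, ∀ t ∈ A.T (p i) (p (i + 1)), ∀ t' ∈ A.T (p i) (p (i + 1)), |t - t'| < δ →
      ‖u i (D.G t) - u i (D.G t')‖ ≤ κ * |D.V t - D.V t'|) (hab : D.a ≤ D.b) :
    ∑ i ∈ Finset.range n, ‖u i (A.γ (p (i + 1))) - u i (A.γ (p i))‖ ≤
      κ * (D.V D.b - D.V D.a) := by
  have hV0 : 0 ≤ D.V D.b - D.V D.a := sub_nonneg.2 (D.hVm hab)
  have h1 : ∑ i ∈ Finset.range n, ENNReal.ofReal ‖u i (A.γ (p (i + 1))) - u i (A.γ (p i))‖ ≤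
      κ * ENNReal.ofReal (D.V D.b - D.V D.a) := by
    calc _ ≤ ∑ i ∈ Finset.range n, κ * volume (D.V '' A.T (p i) (p (i + 1))) := by
          refine Finset.sum_le_sum fun i hi => ?_
          have hi' : i < n := Finset.mem_range.1 hi
          exact A.est (hp i (by omega)) (hp (i + 1) (by omega)) (hmono i hi') (hu i hi') hδ
            (hL i hi')
      _ = κ * ∑ i ∈ Finset.range n, volume (D.V '' A.T (p i) (p (i + 1))) := by
          rw [Finset.mul_sum]
      _ ≤ _ := by gcongr; exact A.sum_le hp hmono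
  rw [← ENNReal.ofReal_sum_of_nonneg (fun _ _ => norm_nonneg _)] at h1
  have h2 : (κ : ℝ≥0∞) * ENNReal.ofReal (D.V D.b - D.V D.a) =
      ENNReal.ofReal (κ * (D.V D.b - D.V D.a)) := by
    rw [ENNReal.ofReal_mul κ.coe_nonneg, ENNReal.ofReal_coe_nnreal]
  rw [h2] at h1
  exact (ENNReal.ofReal_le_ofReal_iff (mul_nonneg κ.coe_nonneg hV0)).1 h1

end Pool.Agent.X189.JP
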